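import Mathlib
import Pool.Agent.H63Fed.Miranda

/-!
# MP_54b048: two points that no flow factor of finite entropy separates

The flow is the translation flow on the 1-Lipschitz functions `ℝ → [0,1]`, times the rotation flow
of the circle `ℝ/ℤ`; the two points are `(0, 0)` and `(1, 0)`.
-/

set_option autoImplicit false
open Filter Topology Set Uniformity

namespace Pool.Agent.Results.MP_54b048_an.InfiniteEntropy

/-! ## The space of 1-Lipschitz functions -/

/-- 1-Lipschitz functions from `ℝ` to `[0,1]`, with the topology of pointwise convergence -/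
def L : Type := {u : ℝ → ℝ // (∀ s, 0 ≤ u s ∧ u s ≤ 1) ∧ ∀ s t, |u s - u t| ≤ |s - t|}

instance : TopologicalSpace L := inferInstanceAs (TopologicalSpace
  {u : ℝ → ℝ // (∀ s, 0 ≤ u s ∧ u s ≤ 1) ∧ ∀ s t, |u s - u t| ≤ |s - t|})

lemma isClosed_L : IsClosed {u : ℝ → ℝ | (∀ s, 0 ≤ u s ∧ u s ≤ 1) ∧ ∀ s t, |u s - u t| ≤ |s - t|} := by
  have h1 : {u : ℝ → ℝ | (∀ s, 0 ≤ u s ∧ u s ≤ 1) ∧ ∀ s t, |u s - u t| ≤ |s - t|} =
      (⋂ s : ℝ, {u : ℝ → ℝ | 0 ≤ u s} ∩ {u : ℝ → ℝ | u s ≤ 1}) ∩
        ⋂ s : ℝ, ⋂ t : ℝ, {u : ℝ → ℝ | |u s - u t| ≤ |s - t|} := by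
    ext u
    simp only [Set.mem_inter_iff, Set.mem_iInter]
    exact Iff.rfl
  rw [h1]
  refine IsClosed.inter (isClosed_iInter fun s => IsClosed.inter ?_ ?_)
    (isClosed_iInter fun s => isClosed_iInter fun t => ?_)
  · exact isClosed_le continuous_const (continuous_apply s)
  · exact isClosed_le (continuous_apply s) continuous_const
  · exact isClosed_le ((continuous_apply s).sub (continuous_apply t)).abs continuous_const

instance : CompactSpace L := by
  have hK : IsCompact {u : ℝ → ℝ | (∀ s, 0 ≤ u s ∧ u s ≤ 1) ∧ ∀ s t, |u s - u t| ≤ |s - t|} := by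
    refine (isCompact_univ_pi (fun _ : ℝ => isCompact_Icc (a := (0 : ℝ)) (b := 1))).of_isClosed_subset
      isClosed_L ?_
    intro u hu s _
    exact hu.1 s
  exact isCompact_iff_compactSpace.1 hK

lemma continuous_L_apply (s : ℝ) : Continuous (fun u : L => u.1 s) :=
  (continuous_apply s).comp continuous_subtype_val

instance : T2Space L := inferInstanceAs (T2Space
  {u : ℝ → ℝ // (∀ s, 0 ≤ u s ∧ u s ≤ 1) ∧ ∀ s t, |u s - u t| ≤ |s - t|})

lemma L_lip (u : L) (s t : ℝ) : |u.1 s - u.1 t| ≤ |s - t| := u.2.2 s t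

lemma L_cont (u : L) : Continuous u.1 := by
  refine Metric.continuous_iff.2 fun b ε hε => ⟨ε, hε, fun a ha => ?_⟩
  rw [Real.dist_eq] at ha ⊢
  exact lt_of_le_of_lt (L_lip u a b) ha

/-- evaluation at the rationals -/
def evQ (u : L) : ℚ → ℝ := fun q => u.1 q

lemma evQ_inj : Function.Injective evQ := by
  intro u v h
  apply Subtype.ext
  refine Rat.isDenseEmbedding_coe_real.dense.equalizer (L_cont u) (L_cont v) ?_
  funext q
  exact congrFun h q

instance : TopologicalSpace.MetrizableSpace L := by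
  have hc : Continuous evQ := continuous_pi fun q => continuous_L_apply (q : ℝ)
  have he : IsEmbedding evQ := (hc.isClosedEmbedding evQ_inj).isEmbedding
  exact he.metrizableSpace

/-- the ambient space -/
abbrev X : Type := L × UnitAddCircle

noncomputable instance : MetricSpace L := TopologicalSpace.metrizableSpaceMetric L

/-- translation -/
def tr (t : ℝ) (u : L) : L :=
  ⟨fun s => u.1 (s + t), fun s => u.2.1 _, fun s s' => by
    have := u.2.2 (s + t) (s' + t)
    simpa using this⟩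

lemma continuous_tr : Continuous (fun p : ℝ × L => tr p.1 p.2) := by
  refine Continuous.subtype_mk (continuous_pi fun s => ?_) _
  rw [continuous_iff_continuousAt]
  rintro ⟨t₀, u₀⟩
  have hlim : Tendsto (fun p : ℝ × L => |p.1 - t₀| + |p.2.1 (s + t₀) - u₀.1 (s + t₀)|)
      (𝓝 (t₀, u₀)) (𝓝 0) := by
    have hc : Continuous (fun p : ℝ × L => |p.1 - t₀| + |p.2.1 (s + t₀) - u₀.1 (s + t₀)|) :=
      (continuous_fst.sub continuous_const).abs.add
        (((continuous_L_apply (s + t₀)).comp continuous_snd).sub continuous_const).abs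
    have := hc.tendsto (t₀, u₀)
    simpa using this
  refine tendsto_iff_dist_tendsto_zero.2 (squeeze_zero (fun _ => dist_nonneg) (fun p => ?_) hlim)
  rw [Real.dist_eq]
  have h1 := L_lip p.2 (s + p.1) (s + t₀)
  have h2 : s + p.1 - (s + t₀) = p.1 - t₀ := by ring
  rw [h2] at h1
  calc |p.2.1 (s + p.1) - u₀.1 (s + t₀)|
      = |(p.2.1 (s + p.1) - p.2.1 (s + t₀)) + (p.2.1 (s + t₀) - u₀.1 (s + t₀))| := by ring_nf
    _ ≤ |p.2.1 (s + p.1) - p.2.1 (s + t₀)| + |p.2.1 (s + t₀) - u₀.1 (s + t₀)| := abs_add_le _ _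
    _ ≤ _ := by gcongr

/-- the flow -/
noncomputable def φ : Flow ℝ X where
  toFun t x := (tr t x.1, x.2 + (t : UnitAddCircle))
  cont' := by
    refine Continuous.prodMk ?_ ?_
    · exact continuous_tr.comp (continuous_fst.prodMk (continuous_fst.comp continuous_snd))
    · exact (continuous_snd.comp continuous_snd).add
        ((AddCircle.continuous_mk' 1).comp continuous_fst)
  map_add' t₁ t₂ x := by
    refine Prod.ext (Subtype.ext (funext fun s => ?_)) ?_
    · show x.1.1 (s + (t₁ + t₂)) = x.1.1 (s + t₁ + t₂)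
      rw [add_assoc]
    · show x.2 + ((t₁ + t₂ : ℝ) : UnitAddCircle) = x.2 + (t₂ : UnitAddCircle) + (t₁ : UnitAddCircle)
      rw [AddCircle.coe_add]
      abel
  map_zero' x := by
    refine Prod.ext (Subtype.ext (funext fun s => ?_)) ?_
    · show x.1.1 (s + 0) = x.1.1 s
      rw [add_zero]
    · show x.2 + ((0 : ℝ) : UnitAddCircle) = x.2
      simp

lemma φ_apply (t : ℝ) (x : X) : φ t x = (tr t x.1, x.2 + (t : UnitAddCircle)) := rfl

lemma fixed_point_free (x : X) : ∃ t : ℝ, φ t x ≠ x := by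
  refine ⟨1 / 2, fun h => ?_⟩
  have h2 : x.2 + ((1 / 2 : ℝ) : UnitAddCircle) = x.2 := congrArg Prod.snd h
  have h3 : ((1 / 2 : ℝ) : UnitAddCircle) = 0 := by simpa using h2
  rw [AddCircle.coe_eq_zero_iff] at h3
  obtain ⟨n, hn⟩ := h3
  have h4 : (n : ℝ) = 1 / 2 := by simpa using hn
  have h5 : ((2 * n : ℤ) : ℝ) = ((1 : ℤ) : ℝ) := by push_cast; linarith
  have h6 : 2 * n = 1 := by exact_mod_cast h5
  omega

/-- constant functions -/
def cst (c : ℝ) (hc : 0 ≤ c ∧ c ≤ 1) : L := ⟨fun _ => c, fun _ => hc, fun s t => by simp⟩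

/-- the two points -/
noncomputable def w₀ : X := (cst 0 ⟨le_rfl, zero_le_one⟩, 0)
noncomputable def w₁ : X := (cst 1 ⟨zero_le_one, le_rfl⟩, 0)

lemma w_ne : w₀ ≠ w₁ := by
  intro h
  have h1 : w₀.1.1 0 = w₁.1.1 0 := by rw [h]
  have h2 : (0 : ℝ) = 1 := h1
  norm_num at h2

/-- functions which are constant near the origin are close to constants -/
lemma window (c : ℝ) (hc : 0 ≤ c ∧ c ≤ 1) (O : Set X) (hO : IsOpen O) (hmem : (cst c hc, 0) ∈ O) :
    ∃ N : ℕ, ∀ u : L, (∀ s : ℝ, |s| ≤ N → u.1 s = c) → (u, (0 : UnitAddCircle)) ∈ O := by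
  by_contra hcon
  push Not at hcon
  choose u hu hu' using hcon
  have hlim : Tendsto u atTop (𝓝 (cst c hc)) := by
    refine tendsto_subtype_rng.2 (tendsto_pi_nhds.2 fun s => ?_)
    refine tendsto_const_nhds.congr' ?_
    obtain ⟨N, hN⟩ := exists_nat_ge |s|
    filter_upwards [eventually_ge_atTop N] with n hn
    exact (hu n s (hN.trans (by exact_mod_cast hn))).symm
  have hlim2 : Tendsto (fun n => (u n, (0 : UnitAddCircle))) atTop (𝓝 (cst c hc, 0)) :=
    hlim.prodMk_nhds tendsto_const_nhds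
  obtain ⟨n, hn⟩ := (hlim2.eventually (hO.mem_nhds hmem)).exists
  exact hu' n hn

/-! ## Block functions -/

/-- clipping to `[0,1]` -/
noncomputable def cl (t : ℝ) : ℝ := max 0 (min 1 t)

lemma cl_nonneg (t : ℝ) : 0 ≤ cl t := le_max_left _ _
lemma cl_le (t : ℝ) : cl t ≤ 1 := max_le zero_le_one (min_le_left _ _)
lemma cl_zero : cl 0 = 0 := by simp [cl]
lemma cl_one : cl 1 = 1 := by simp [cl]
lemma continuous_cl : Continuous cl := continuous_const.max (continuous_const.min continuous_id)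

/-- the pieces -/
noncomputable def pc (N m : ℕ) (θ : Fin (m + 1) → ℝ) (j : Fin (m + 1)) (s : ℝ) : ℝ :=
  cl (θ j) + max 0 (|s - (j : ℝ) * (2 * N + 1)| - N)

/-- the block function -/
noncomputable def bl (N m : ℕ) (θ : Fin (m + 1) → ℝ) (s : ℝ) : ℝ :=
  min 1 (Finset.univ.inf' Finset.univ_nonempty (fun j => pc N m θ j s))

lemma pc_nonneg (N m : ℕ) (θ : Fin (m + 1) → ℝ) (j : Fin (m + 1)) (s : ℝ) : 0 ≤ pc N m θ j s :=
  add_nonneg (cl_nonneg _) (le_max_left _ _)

lemma pc_lip (N m : ℕ) (θ : Fin (m + 1) → ℝ) (j : Fin (m + 1)) (s t : ℝ) :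
    pc N m θ j s ≤ pc N m θ j t + |s - t| := by
  unfold pc
  rw [add_assoc]
  gcongr
  refine max_le (add_nonneg (le_max_left _ _) (abs_nonneg _)) ?_
  have h1 : |s - (j : ℝ) * (2 * N + 1)| ≤ |t - (j : ℝ) * (2 * N + 1)| + |s - t| := by
    have := abs_add_le (t - (j : ℝ) * (2 * N + 1)) (s - t)
    have h2 : t - (j : ℝ) * (2 * N + 1) + (s - t) = s - (j : ℝ) * (2 * N + 1) := by ring
    rwa [h2] at this
  have h2 := le_max_right 0 (|t - (j : ℝ) * (2 * N + 1)| - N)
  linarith

lemma bl_le (N m : ℕ) (θ : Fin (m + 1) → ℝ) (s t : ℝ) : bl N m θ s ≤ bl N m θ t + |s - t| := by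
  unfold bl
  rw [← min_add_add_right]
  refine le_min ((min_le_left _ _).trans (by linarith [abs_nonneg (s - t)])) ?_
  refine (min_le_right _ _).trans ?_
  obtain ⟨j, -, hj⟩ := Finset.exists_mem_eq_inf' (s := (Finset.univ : Finset (Fin (m + 1))))
    Finset.univ_nonempty (fun j => pc N m θ j t)
  rw [hj]
  exact (Finset.inf'_le _ (Finset.mem_univ j)).trans (pc_lip N m θ j s t)

/-- the block function as a point of `L` -/
noncomputable def B (N m : ℕ) (θ : Fin (m + 1) → ℝ) : L :=
  ⟨bl N m θ, fun s => ⟨le_min zero_le_one (Finset.le_inf' _ _ fun j _ => pc_nonneg N m θ j s),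
    min_le_left _ _⟩, fun s t => by
    rw [abs_le]
    have h1 := bl_le N m θ s t
    have h2 := bl_le N m θ t s
    rw [abs_sub_comm] at h2
    constructor <;> linarith⟩

lemma continuous_B (N m : ℕ) : Continuous (B N m) := by
  refine Continuous.subtype_mk (continuous_pi fun s => ?_) _
  refine continuous_const.min ?_
  refine Continuous.finset_inf'_apply _ fun j _ => ?_
  exact (continuous_cl.comp (continuous_apply j)).add continuous_const

lemma bl_val (N m : ℕ) (θ : Fin (m + 1) → ℝ) (i : Fin (m + 1)) (s : ℝ) (hs : |s| ≤ N) :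
    bl N m θ (s + (i : ℝ) * (2 * N + 1)) = cl (θ i) := by
  apply le_antisymm
  · refine (min_le_right _ _).trans ((Finset.inf'_le _ (Finset.mem_univ i)).trans ?_)
    unfold pc
    have h1 : s + (i : ℝ) * (2 * N + 1) - (i : ℝ) * (2 * N + 1) = s := by ring
    rw [h1, max_eq_left (by linarith), add_zero]
  · refine le_min (cl_le _) (Finset.le_inf' _ _ fun j _ => ?_)
    by_cases hij : j = i
    · subst hij
      unfold pc
      linarith [le_max_left 0 (|s + (j : ℝ) * (2 * N + 1) - (j : ℝ) * (2 * N + 1)| - N)]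
    · unfold pc
      have h1 : (1 : ℝ) ≤ |((i : ℕ) : ℝ) - ((j : ℕ) : ℝ)| := by
        have hne : ((i : ℕ) : ℤ) - ((j : ℕ) : ℤ) ≠ 0 := by
          intro h
          apply hij
          apply Fin.ext
          omega
        have := Int.one_le_abs hne
        exact_mod_cast this
      have h2 : |((i : ℝ) - (j : ℝ)) * (2 * N + 1)| ≤
          |s + (i : ℝ) * (2 * N + 1) - (j : ℝ) * (2 * N + 1)| + |s| := by
        have := abs_sub (s + (i : ℝ) * (2 * N + 1) - (j : ℝ) * (2 * N + 1)) s
        have h3 : s + (i : ℝ) * (2 * N + 1) - (j : ℝ) * (2 * N + 1) - s =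
          ((i : ℝ) - (j : ℝ)) * (2 * N + 1) := by ring
        rwa [h3] at this
      rw [abs_mul, abs_of_nonneg (by positivity : (0 : ℝ) ≤ 2 * N + 1)] at h2
      have h3 : (2 * (N : ℝ) + 1) ≤ |((i : ℕ) : ℝ) - ((j : ℕ) : ℝ)| * (2 * N + 1) := by
        have h4 : (0 : ℝ) ≤ 2 * N + 1 := by positivity
        nlinarith
      have h5 := le_max_right 0 (|s + (i : ℝ) * (2 * N + 1) - (j : ℝ) * (2 * N + 1)| - N)
      have h6 := cl_nonneg (θ j)
      have h7 := cl_le (θ i)
      linarith

/-! ## The theorem -/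

lemma flow_iter {Y : Type} [TopologicalSpace Y] (ψ : Flow ℝ Y) (n : ℕ) (y : Y) :
    (ψ 1)^[n] y = ψ n y := by
  induction n with
  | zero => simp
  | succ n ih =>
    rw [Function.iterate_succ_apply', ih, ← ψ.map_add]
    congr 1
    push_cast; ring

/-- all prescribed profiles are realised -/
lemma realise (g : X → ℝ) (hg : Continuous g) (N m : ℕ) (D : ℝ)
    (h0 : ∀ u : L, (∀ s : ℝ, |s| ≤ N → u.1 s = 0) → g (u, 0) < D / 3)
    (h1 : ∀ u : L, (∀ s : ℝ, |s| ≤ N → u.1 s = 1) → 2 * D / 3 < g (u, 0))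
    (t : Fin (m + 1) → ℝ) (ht : ∀ i, D / 3 ≤ t i ∧ t i ≤ 2 * D / 3) :
    ∃ x : X, ∀ i : Fin (m + 1), g (φ ((i : ℝ) * (2 * N + 1)) x) = t i := by
  have hcirc : ∀ i : Fin (m + 1),
      (0 : UnitAddCircle) + (((i : ℝ) * (2 * N + 1) : ℝ) : UnitAddCircle) = 0 := by
    intro i
    rw [zero_add, AddCircle.coe_eq_zero_iff]
    exact ⟨(i : ℕ) * (2 * N + 1), by simp⟩
  have hφ : ∀ (θ : Fin (m + 1) → ℝ) (i : Fin (m + 1)),
      φ ((i : ℝ) * (2 * N + 1)) (B N m θ, 0) = (tr ((i : ℝ) * (2 * N + 1)) (B N m θ), 0) := by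
    intro θ i
    rw [φ_apply, hcirc i]
  obtain ⟨θ, -, hθ⟩ := H63Fed.Miranda.poincare_miranda (m + 1)
    (fun θ i => g (φ ((i : ℝ) * (2 * N + 1)) (B N m θ, 0)) - t i)
    (by
      refine Continuous.continuousOn (continuous_pi fun i => ?_)
      refine (hg.comp ?_).sub continuous_const
      exact (φ.continuous continuous_const ((continuous_B N m).prodMk continuous_const)))
    (by
      intro θ _ i hi
      simp only [hφ]
      have := h0 (tr ((i : ℝ) * (2 * N + 1)) (B N m θ)) (fun s hs => by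
        show bl N m θ (s + (i : ℝ) * (2 * N + 1)) = 0
        rw [bl_val N m θ i s hs, hi, cl_zero])
      linarith [(ht i).1])
    (by
      intro θ _ i hi
      simp only [hφ]
      have := h1 (tr ((i : ℝ) * (2 * N + 1)) (B N m θ)) (fun s hs => by
        show bl N m θ (s + (i : ℝ) * (2 * N + 1)) = 1
        rw [bl_val N m θ i s hs, hi, cl_one])
      linarith [(ht i).2])
  refine ⟨(B N m θ, 0), fun i => ?_⟩
  have := congrFun hθ i
  simp only [Pi.zero_apply] at this
  linarith

/-- **Main theorem.** There is a fixed-point free flow on a compact metric space with two distinct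
points `w`, `w'` such that every flow factor that separates them has infinite entropy. -/
theorem result : ∃ (X : Type) (_ : MetricSpace X) (_ : CompactSpace X) (φ : Flow ℝ X),
    (∀ x : X, ∃ t : ℝ, φ t x ≠ x) ∧ ∃ w w' : X, w ≠ w' ∧
      ∀ (Y : Type) (_ : MetricSpace Y) (_ : CompactSpace Y) (ψ : Flow ℝ Y) (π : X → Y),
        Continuous π → Function.Surjective π → (∀ (t : ℝ) (x : X), π (φ t x) = ψ t (π x)) →
        π w ≠ π w' → Dynamics.coverEntropy (ψ 1) (Set.univ : Set Y) = ⊤ := by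
  refine ⟨X, inferInstance, inferInstance, φ, fixed_point_free, w₀, w₁, w_ne, ?_⟩
  intro Y _ _ ψ π hπ _ hequi hsep
  set D := dist (π w₁) (π w₀) with hD
  have hDpos : 0 < D := dist_pos.2 (Ne.symm hsep)
  set g : X → ℝ := fun x => dist (π x) (π w₀) with hgdef
  have hg : Continuous g := hπ.dist continuous_const
  obtain ⟨N₀, hN₀⟩ := window 0 ⟨le_rfl, zero_le_one⟩ {x | g x < D / 3}
    (isOpen_lt hg continuous_const) (by
      show dist (π w₀) (π w₀) < D / 3
      rw [dist_self]; positivity)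
  obtain ⟨N₁, hN₁⟩ := window 1 ⟨zero_le_one, le_rfl⟩ {x | 2 * D / 3 < g x}
    (isOpen_lt continuous_const hg) (by
      show 2 * D / 3 < dist (π w₁) (π w₀)
      rw [← hD]; linarith)
  set N := max N₀ N₁ with hN
  have h0 : ∀ u : L, (∀ s : ℝ, |s| ≤ N → u.1 s = 0) → g (u, 0) < D / 3 := fun u hu =>
    hN₀ u fun s hs => hu s (hs.trans (by exact_mod_cast le_max_left _ _))
  have h1 : ∀ u : L, (∀ s : ℝ, |s| ≤ N → u.1 s = 1) → 2 * D / 3 < g (u, 0) := fun u hu =>
    hN₁ u fun s hs => hu s (hs.trans (by exact_mod_cast le_max_right _ _))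
  -- it is enough to beat every real number
  rw [EReal.eq_top_iff_forall_lt]
  intro c
  have hkey : ((c + 1 : ℝ) : EReal) ≤ Dynamics.coverEntropy (ψ 1) (Set.univ : Set Y) := by
    obtain ⟨k', hk'⟩ := exists_nat_ge (Real.exp ((c + 1) * (2 * N + 1)))
    set k := k' + 1 with hk
    have hkpos : (0 : ℝ) < k := by rw [hk]; positivity
    have hkexp : Real.exp ((c + 1) * (2 * N + 1)) ≤ k := hk'.trans (by rw [hk]; push_cast; linarith)
    set r := D / (6 * k) with hr
    have hrpos : 0 < r := by positivity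
    refine le_trans ?_ (Dynamics.netEntropyEntourage_le_coverEntropy (U := {p : Y × Y | dist p.1 p.2 < r})
      (ψ 1) Set.univ (Metric.dist_mem_uniformity hrpos))
    refine Frequently.le_expGrowthSup ?_
    rw [Filter.frequently_atTop]
    intro m
    refine ⟨(m + 1) * (2 * N + 1), by nlinarith, ?_⟩
    -- the profiles
    have hprof : ∀ a : Fin (m + 1) → Fin k, ∃ x : X, ∀ i : Fin (m + 1),
        g (φ ((i : ℝ) * (2 * N + 1)) x) = D / 3 + (a i : ℝ) * (2 * r) := by
      intro a
      refine realise g hg N m D h0 h1 _ fun i => ⟨?_, ?_⟩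
      · have : (0 : ℝ) ≤ (a i : ℝ) * (2 * r) := by positivity
        linarith
      · have h2 : ((a i : ℕ) : ℝ) ≤ k := by exact_mod_cast (a i).2.le
        have h3 : ((a i : ℕ) : ℝ) * (2 * r) ≤ k * (2 * r) := by gcongr
        have h4 : (k : ℝ) * (2 * r) = D / 3 := by rw [hr]; field_simp; ring
        linarith
    choose x hx using hprof
    have hdist : ∀ a b : Fin (m + 1) → Fin k, ∀ i, a i ≠ b i →
        2 * r ≤ dist ((ψ 1)^[(i : ℕ) * (2 * N + 1)] (π (x a))) ((ψ 1)^[(i : ℕ) * (2 * N + 1)] (π (x b))) := by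
      intro a b i hi
      rw [flow_iter, flow_iter]
      push_cast
      rw [← hequi, ← hequi]
      have h2 := hx a i
      have h3 := hx b i
      simp only [hgdef] at h2 h3
      have h4 := abs_dist_sub_le (π (φ ((i : ℝ) * (2 * N + 1)) (x a)))
        (π (φ ((i : ℝ) * (2 * N + 1)) (x b))) (π w₀)
      rw [h2, h3] at h4
      refine le_trans ?_ h4
      have h5 : D / 3 + ((a i : ℕ) : ℝ) * (2 * r) - (D / 3 + ((b i : ℕ) : ℝ) * (2 * r)) =
          (((a i : ℕ) : ℝ) - ((b i : ℕ) : ℝ)) * (2 * r) := by ring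
      rw [h5, abs_mul, abs_of_pos (by positivity : 0 < 2 * r)]
      have h6 : (1 : ℝ) ≤ |((a i : ℕ) : ℝ) - ((b i : ℕ) : ℝ)| := by
        have hne : ((a i : ℕ) : ℤ) - ((b i : ℕ) : ℤ) ≠ 0 := by
          intro h
          apply hi
          apply Fin.ext
          omega
        have := Int.one_le_abs hne
        exact_mod_cast this
      nlinarith
    have hinj : Function.Injective (fun a => π (x a)) := by
      intro a b hab
      by_contra hne
      obtain ⟨i, hi⟩ := Function.ne_iff.1 hne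
      have := hdist a b i hi
      simp only at hab
      rw [hab, dist_self] at this
      linarith
    classical
    have hnet : Dynamics.IsDynNetIn (ψ 1) Set.univ {p : Y × Y | dist p.1 p.2 < r}
        ((m + 1) * (2 * N + 1)) ((Finset.univ.image (fun a => π (x a)) : Finset Y) : Set Y) := by
      refine ⟨Set.subset_univ _, ?_⟩
      intro y hy z hz hyz
      rw [Finset.mem_coe, Finset.mem_image] at hy hz
      obtain ⟨a, -, rfl⟩ := hy
      obtain ⟨b, -, rfl⟩ := hz
      have hab : a ≠ b := fun h => hyz (by rw [h])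
      obtain ⟨i, hi⟩ := Function.ne_iff.1 hab
      refine Set.disjoint_left.2 fun v hv1 hv2 => ?_
      have hlt : (i : ℕ) * (2 * N + 1) < (m + 1) * (2 * N + 1) :=
        Nat.mul_lt_mul_of_pos_right i.2 (by omega)
      have e1 := (Dynamics.mem_dynEntourage.1 hv1) _ hlt
      have e2 := (Dynamics.mem_dynEntourage.1 hv2) _ hlt
      simp only [Set.mem_ofPred_eq] at e1 e2
      have e3 := hdist a b i hi
      have e4 := dist_triangle_right ((ψ 1)^[(i : ℕ) * (2 * N + 1)] (π (x a)))
        ((ψ 1)^[(i : ℕ) * (2 * N + 1)] (π (x b))) ((ψ 1)^[(i : ℕ) * (2 * N + 1)] v)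
      linarith
    have hcard := hnet.card_le_netMaxcard
    rw [Finset.card_image_of_injective _ hinj, Finset.card_univ, Fintype.card_fun,
      Fintype.card_fin, Fintype.card_fin] at hcard
    refine le_trans ?_ (ENat.toENNReal_mono hcard)
    have h7 : ((c + 1 : ℝ) : EReal) * (((m + 1) * (2 * N + 1) : ℕ) : EReal) =
        (((c + 1) * ((m + 1) * (2 * N + 1)) : ℝ) : EReal) := by
      push_cast
      rfl
    rw [h7, EReal.exp_coe]
    have h8 : Real.exp ((c + 1) * ((m + 1) * (2 * N + 1))) ≤ (k : ℝ) ^ (m + 1) := by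
      calc Real.exp ((c + 1) * ((m + 1) * (2 * N + 1)))
          = Real.exp ((c + 1) * (2 * N + 1)) ^ (m + 1) := by
            rw [← Real.exp_nat_mul]; congr 1; push_cast; ring
        _ ≤ (k : ℝ) ^ (m + 1) := by gcongr
    calc ENNReal.ofReal (Real.exp ((c + 1) * ((m + 1) * (2 * N + 1))))
        ≤ ENNReal.ofReal ((k : ℝ) ^ (m + 1)) := ENNReal.ofReal_le_ofReal h8
      _ = _ := by
        rw [← Nat.cast_pow, ENNReal.ofReal_natCast]
        simp
  refine lt_of_lt_of_le ?_ hkey
  exact_mod_cast lt_add_one c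

end Pool.Agent.Results.MP_54b048_an.InfiniteEntropy
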